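import Mathlib

/-!
# Tensor products of fields in characteristic `0` are reduced
-/

set_option autoImplicit false

namespace Pool.Agent.J4H82.MT

open TensorProduct

universe u v w

/-- a nonzero element of a finitely generated domain does not vanish at some point over a finite extension -/
lemma exists_hom (k : Type u) (B : Type w) [Field k] [CommRing B] [IsDomain B] [Algebra k B]
    [Algebra.FiniteType k B] (b : B) (hb : b ≠ 0) :
    ∃ (F : Type w) (_ : Field F) (_ : Algebra k F) (_ : Module.Finite k F) (φ : B →ₐ[k] F),
      φ b ≠ 0 := by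
  have hnt : Nontrivial (Localization.Away b) := by
    have hle : Submonoid.powers b ≤ nonZeroDivisors B := by
      rintro _ ⟨n, rfl⟩
      exact mem_nonZeroDivisors_of_ne_zero (pow_ne_zero n hb)
    exact (IsLocalization.injective (Localization.Away b) hle).nontrivial
  obtain ⟨m, hm⟩ := Ideal.exists_maximal (Localization.Away b)
  have hft : Algebra.FiniteType k (Localization.Away b) :=
    Algebra.FiniteType.trans (S := B) inferInstance inferInstance
  let F := Localization.Away b ⧸ m
  let _ : Field F := Ideal.Quotient.field m
  have hft2 : Algebra.FiniteType k F :=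
    Algebra.FiniteType.of_surjective (Ideal.Quotient.mkₐ k m) (Ideal.Quotient.mkₐ_surjective k m)
  refine ⟨F, inferInstance, inferInstance, finite_of_finite_type_of_isJacobsonRing k F,
    (Ideal.Quotient.mkₐ k m).comp (IsScalarTower.toAlgHom k B (Localization.Away b)), ?_⟩
  have hu : IsUnit (algebraMap B (Localization.Away b) b) :=
    IsLocalization.Away.algebraMap_isUnit b
  have hu2 := hu.map (Ideal.Quotient.mkₐ k m)
  exact hu2.ne_zero

lemma red_fg (k : Type u) (K : Type v) (B : Type w) [Field k] [CharZero k] [Field K]
    [Algebra k K] [CommRing B] [IsDomain B] [Algebra k B] [Algebra.FiniteType k B] :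
    IsReduced (K ⊗[k] B) := by
  constructor
  intro x hx
  classical
  by_contra h0
  let e := Module.Basis.ofVectorSpace k K
  have h1 : TensorProduct.equivFinsuppOfBasisLeft (N := B) e x ≠ 0 := by
    rwa [Ne, LinearEquiv.map_eq_zero_iff]
  obtain ⟨i, hi⟩ := Finsupp.ne_iff.mp h1
  obtain ⟨F, _, _, _, φ, hφ⟩ := exists_hom k B _ hi
  have hsep : Algebra.FormallyUnramified k F := Algebra.FormallyUnramified.of_isSeparable k F
  have hred : IsReduced (K ⊗[k] F) := Algebra.FormallyUnramified.isReduced_of_field K (K ⊗[k] F)
  have h2 : Algebra.TensorProduct.map (AlgHom.id K K) φ x = 0 :=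
    (hx.map (Algebra.TensorProduct.map (AlgHom.id K K) φ)).eq_zero
  apply hφ
  have h3 : ∀ y : K ⊗[k] B, TensorProduct.equivFinsuppOfBasisLeft (N := F) e
      (Algebra.TensorProduct.map (AlgHom.id K K) φ y) i =
      φ (TensorProduct.equivFinsuppOfBasisLeft (N := B) e y i) := by
    intro y
    induction y using TensorProduct.induction_on with
    | zero => simp
    | tmul a b => simp
    | add a b ha hb => simp only [map_add, Finsupp.add_apply, ha, hb]
  rw [← h3, h2]
  simp

theorem t_RED' (k : Type u) (K : Type v) (L : Type w) [Field k] [CharZero k] [Field K]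
    [Algebra k K] [Field L] [Algebra k L] : IsReduced (K ⊗[k] L) := by
  refine IsReduced.tensorProduct_of_flat_of_forall_fg fun B hB => ?_
  have : Algebra.FiniteType k B := B.fg_iff_finiteType.mp hB
  exact red_fg k K B

theorem t_RED (k : Type u) (K : Type v) (L : Type w) [Field k] [CharZero k] [Field K]
    [Algebra k K] [Field L] [Algebra k L] [IsAlgClosed L] : IsReduced (TensorProduct k L K) := by
  have := t_RED' k K L
  exact isReduced_of_injective (Algebra.TensorProduct.comm k L K)
    (Algebra.TensorProduct.comm k L K).injective

end Pool.Agent.J4H82.MT
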